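import Pool.Agent.KS6_9.MP_d61ac0_an.Lens

/-! The coefficients of the powers of the lens maps and Littlewood's inequality. -/

namespace Pool.Agent.KS6_9.Lens
open Finset MeasureTheory Set Pool.Agent.V1197.CW
open scoped ComplexConjugate

/-- Taylor coefficients at `0` -/
noncomputable def tc (f : ℂ → ℂ) (n : ℕ) : ℂ := ((n.factorial : ℂ)⁻¹) * iteratedDeriv n f 0

theorem tc_hasSum {f : ℂ → ℂ} (hf : DifferentiableOn ℂ f (Metric.ball 0 1)) (z : ℂ) (hz : ‖z‖ < 1) :
    HasSum (fun n => tc f n * z ^ n) (f z) := by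
  have h := Complex.hasSum_taylorSeries_on_ball hf (mem_ball_zero_iff.2 hz)
  have e : (fun n : ℕ => tc f n * z ^ n) =
      fun n : ℕ => ((n.factorial : ℂ)⁻¹) • (z - 0) ^ n • iteratedDeriv n f 0 := by
    funext n
    rw [tc, sub_zero, smul_eq_mul, smul_eq_mul]
    ring
  rw [e]
  exact h

theorem tc_summable {f : ℂ → ℂ} (hf : DifferentiableOn ℂ f (Metric.ball 0 1)) (z : ℂ)
    (hz : ‖z‖ < 1) : Summable (fun n => ‖tc f n * z ^ n‖) := (tc_hasSum hf z hz).summable.norm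

theorem mean_mono {f g : ℂ → ℂ} (hf : ContinuousOn f (Metric.ball 0 1))
    (hg : ContinuousOn g (Metric.ball 0 1)) {ρ : ℝ} (h0 : 0 ≤ ρ) (h1 : ρ < 1)
    (h : ∀ z : ℂ, ‖z‖ = ρ → ‖f z‖ ≤ ‖g z‖) : HardyMean f ρ ≤ HardyMean g ρ := by
  have hc : ∀ f : ℂ → ℂ, ContinuousOn f (Metric.ball 0 1) →
      Continuous fun θ : ℝ => ‖f ((ρ : ℂ) * Complex.exp ((θ : ℂ) * Complex.I))‖ ^ 2 := by
    intro f hf
    refine Continuous.pow (Continuous.norm ?_) 2
    refine hf.comp_continuous (by fun_prop) fun θ => ?_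
    rw [mem_ball_zero_iff, circ_norm ρ θ h0]
    exact h1
  unfold HardyMean
  refine mul_le_mul_of_nonneg_left ?_ (by positivity)
  refine intervalIntegral.integral_mono_on (by positivity) ((hc f hf).intervalIntegrable _ _)
    ((hc g hg).intervalIntegrable _ _) fun θ _ => ?_
  have := h _ (circ_norm ρ θ h0)
  gcongr

theorem mean_const (K : ℝ) (ρ : ℝ) (f : ℂ → ℂ) (hK : ∀ z : ℂ, ‖z‖ = ρ → ‖f z‖ = K) (h0 : 0 ≤ ρ) :
    HardyMean f ρ = K ^ 2 := by
  unfold HardyMean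
  have : ∀ θ : ℝ, ‖f ((ρ : ℂ) * Complex.exp ((θ : ℂ) * Complex.I))‖ ^ 2 = K ^ 2 := fun θ => by
    rw [hK _ (circ_norm ρ θ h0)]
  simp only [this, intervalIntegral.integral_const, smul_eq_mul, sub_zero]
  have := Real.pi_pos.ne'
  field_simp

/-- a function which is `O(z^N)` has no Taylor coefficients below `N` -/
theorem coeff_zero (c : ℕ → ℂ) (h : ℂ → ℂ) (hd : ContinuousOn h (Metric.ball 0 1))
    (hc : ∀ z : ℂ, ‖z‖ < 1 → HasSum (fun n => c n * z ^ n) (h z)) (N : ℕ) (K : ℝ)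
    (hK : ∀ z : ℂ, ‖z‖ ≤ 1 / 2 → ‖h z‖ ≤ K * ‖z‖ ^ N) (j : ℕ) (hj : j < N) : c j = 0 := by
  have hK0 : 0 ≤ K := by
    have h1 := hK (1 / 2 : ℂ) (by norm_num)
    have h2 : 0 ≤ K * ‖(1 / 2 : ℂ)‖ ^ N := (norm_nonneg _).trans h1
    have h3 : 0 < ‖(1 / 2 : ℂ)‖ ^ N := by
      have : ‖(1 / 2 : ℂ)‖ = 1 / 2 := by norm_num
      rw [this]; positivity
    exact nonneg_of_mul_nonneg_left h2 h3
  have key : ∀ ρ : ℝ, 0 < ρ → ρ ≤ 1 / 2 → ‖c j‖ ≤ K * ρ := by
    intro ρ h0 h1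
    have hp := parseval c h (fun z hz => (hc z hz).summable.norm) hc ρ h0.le (by linarith)
    have h2 : ‖c j‖ ^ 2 * ρ ^ (j + j) ≤ HardyMean h ρ :=
      le_hasSum hp j fun i _ => by positivity
    have h3 : HardyMean h ρ ≤ HardyMean (fun z => (K : ℂ) * z ^ N) ρ := by
      refine mean_mono hd (by fun_prop) h0.le (by linarith) fun z hz => ?_
      rw [norm_mul, norm_pow, Complex.norm_real, Real.norm_of_nonneg hK0]
      exact hK z (by linarith)
    rw [mean_const (K * ρ ^ N) ρ (fun z => (K : ℂ) * z ^ N) (fun z hz => by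
      rw [norm_mul, norm_pow, Complex.norm_real, Real.norm_of_nonneg hK0, hz]) h0.le] at h3
    have h4 : (‖c j‖ * ρ ^ j) ^ 2 ≤ (K * ρ ^ N) ^ 2 := by
      calc _ = ‖c j‖ ^ 2 * ρ ^ (j + j) := by ring
        _ ≤ _ := h2.trans h3
    have h5 : ‖c j‖ * ρ ^ j ≤ K * ρ ^ N :=
      (pow_le_pow_iff_left₀ (by positivity) (by positivity) two_ne_zero).1 h4
    have h6 : K * ρ ^ N ≤ K * ρ * ρ ^ j := by
      rw [mul_assoc, ← pow_succ']
      exact mul_le_mul_of_nonneg_left (pow_le_pow_of_le_one h0.le (by linarith) (by omega)) hK0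
    exact le_of_mul_le_mul_right (h5.trans h6) (by positivity)
  by_contra hne
  have hpos : 0 < ‖c j‖ := norm_pos_iff.2 hne
  have h1 := key (min (1 / 2) (‖c j‖ / (2 * (K + 1)))) (by positivity) (min_le_left _ _)
  have h2 : K * min (1 / 2) (‖c j‖ / (2 * (K + 1))) ≤ K * (‖c j‖ / (2 * (K + 1))) :=
    mul_le_mul_of_nonneg_left (min_le_right _ _) hK0
  have h3 : K * (‖c j‖ / (2 * (K + 1))) ≤ ‖c j‖ / 2 := by
    rw [← mul_div_assoc, div_le_div_iff₀ (by positivity) (by norm_num)]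
    nlinarith
  linarith

/-- coefficient of `x^j` in the `n`-th power of the lens map -/
noncomputable def lc (τ : ℝ) (j n : ℕ) : ℂ := tc (fun x => lam τ x ^ n) j

section
variable {τ : ℝ} (h0 : 0 ≤ τ) (h1 : τ ≤ 1)
include h0 h1

theorem lam_pow_diff (n : ℕ) : DifferentiableOn ℂ (fun x => lam τ x ^ n) (Metric.ball 0 1) :=
  (lam_diffOn h0 h1).pow n

theorem lc_hasSum (n : ℕ) (z : ℂ) (hz : ‖z‖ < 1) :
    HasSum (fun j => lc τ j n * z ^ j) (lam τ z ^ n) :=
  tc_hasSum (lam_pow_diff h0 h1 n) z hz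

theorem lc_lt (j n : ℕ) (h : j < n) : lc τ j n = 0 := by
  refine coeff_zero (fun j => lc τ j n) _ (lam_pow_diff h0 h1 n).continuousOn
    (lc_hasSum h0 h1 n) n 1 (fun z hz => ?_) j h
  rw [norm_pow, one_mul]
  exact pow_le_pow_left₀ (norm_nonneg _) (lam_schwarz h0 h1 (by linarith)) n

theorem lc_parity (j n : ℕ) (h : (j + n) % 2 = 1) : lc τ j n = 0 := by
  have hs : ∀ z : ℂ, ‖z‖ < 1 →
      HasSum (fun i => ((-1) ^ i * lc τ i n - (-1) ^ n * lc τ i n) * z ^ i) ((fun _ => 0 : ℂ → ℂ) z) := by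
    intro z hz
    have a1 := lc_hasSum h0 h1 n (-z) (by rwa [norm_neg])
    have a2 := (lc_hasSum h0 h1 n z hz).mul_left ((-1) ^ n)
    have a3 := a1.sub a2
    rw [lam_neg, neg_pow (lam τ z) n, sub_self] at a3
    have e : (fun i => ((-1) ^ i * lc τ i n - (-1) ^ n * lc τ i n) * z ^ i) =
        fun i => lc τ i n * (-z) ^ i - (-1) ^ n * (lc τ i n * z ^ i) := by
      funext i
      rw [neg_pow z i]
      ring
    rw [e]
    exact a3
  have := coeff_zero (fun i => (-1) ^ i * lc τ i n - (-1) ^ n * lc τ i n) _ (by fun_prop) hs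
    (j + 1) 0 (by simp) j (by omega)
  rcases Nat.even_or_odd j with hj | hj
  · have hn : Odd n := by rw [Nat.odd_iff]; have := Nat.even_iff.1 hj; omega
    rw [hj.neg_one_pow, hn.neg_one_pow] at this
    linear_combination this / 2
  · have hn : Even n := by rw [Nat.even_iff]; have := Nat.odd_iff.1 hj; omega
    rw [hj.neg_one_pow, hn.neg_one_pow] at this
    linear_combination -this / 2

/-- the matrices of the lens maps are diagonalised by the powers of `Lg` -/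
theorem lc_al (j m : ℕ) :
    ∑ n ∈ range (j + 1), lc τ j n * (al n m : ℂ) = (τ : ℂ) ^ m * (al j m : ℂ) := by
  have hL : ∀ z : ℂ, ‖z‖ < 1 → HasSum (fun n => (al n m : ℂ) * z ^ n) (Lg z ^ m) := fun z hz => by
    rw [← (Lg_pow m z hz).2]
    exact (Lg_pow m z hz).1.of_norm.hasSum
  let h : ℂ → ℂ := fun z => ∑ n ∈ range (j + 1), (al n m : ℂ) * lam τ z ^ n - (τ : ℂ) ^ m * Lg z ^ m
  have hs : ∀ z : ℂ, ‖z‖ < 1 → HasSum (fun i => (∑ n ∈ range (j + 1), lc τ i n * (al n m : ℂ) -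
      (τ : ℂ) ^ m * (al i m : ℂ)) * z ^ i) (h z) := by
    intro z hz
    have a1 := hasSum_sum (s := range (j + 1)) (f := fun n i => (al n m : ℂ) * (lc τ i n * z ^ i))
      (a := fun n => (al n m : ℂ) * lam τ z ^ n) fun n _ => (lc_hasSum h0 h1 n z hz).mul_left _
    have a2 := (hL z hz).mul_left ((τ : ℂ) ^ m)
    have e : (fun i => (∑ n ∈ range (j + 1), lc τ i n * (al n m : ℂ) -
        (τ : ℂ) ^ m * (al i m : ℂ)) * z ^ i) = fun i => ∑ n ∈ range (j + 1),
          (al n m : ℂ) * (lc τ i n * z ^ i) - (τ : ℂ) ^ m * ((al i m : ℂ) * z ^ i) := by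
      funext i
      rw [sub_mul, Finset.sum_mul, mul_assoc]
      congr 1
      exact Finset.sum_congr rfl fun n _ => by ring
    rw [e]
    exact a1.sub a2
  have hd : ContinuousOn h (Metric.ball 0 1) := by
    refine ContinuousOn.sub (continuousOn_finsetSum _ fun n _ =>
      continuousOn_const.mul (lam_pow_diff h0 h1 n).continuousOn) (continuousOn_const.mul ?_)
    exact fun z hz => ((Lg_diff (mem_ball_zero_iff.1 hz)).continuousAt.pow m).continuousWithinAt
  obtain ⟨K, hK⟩ : ∃ K : ℝ, ∀ z : ℂ, ‖z‖ ≤ 1 / 2 → ‖h z‖ ≤ K * ‖z‖ ^ (j + 1) := by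
    have hs2 : Summable fun n => ‖(al (n + (j + 1)) m : ℂ)‖ * (1 / 2 : ℝ) ^ n := by
      have a1 := (summable_nat_add_iff (j + 1)).2 (Lg_pow m (1 / 2) (by norm_num)).1
      have a2 := a1.mul_left ((2 : ℝ) ^ (j + 1))
      refine a2.congr fun n => ?_
      rw [norm_mul, norm_pow, pow_add]
      have : ‖(1 / 2 : ℂ)‖ = 1 / 2 := by norm_num
      rw [this]
      have : (2 : ℝ) ^ (j + 1) * (1 / 2) ^ (j + 1) = 1 := by rw [← mul_pow]; norm_num
      linear_combination (‖(al (n + (j + 1)) m : ℂ)‖ * (1 / 2 : ℝ) ^ n) * this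
    refine ⟨∑' n, ‖(al (n + (j + 1)) m : ℂ)‖ * (1 / 2 : ℝ) ^ n, fun z hz => ?_⟩
    have hz1 : ‖z‖ < 1 := by linarith
    have hl1 := lam_norm_lt h0 h1 hz1
    have hl := lam_schwarz h0 h1 hz1
    have a0 : (τ : ℂ) ^ m * Lg z ^ m = Lg (lam τ z) ^ m := by rw [Lg_lam h0 h1 hz1, mul_pow]
    have a1 := hL _ hl1
    have a2 : h z = - ∑' n, (al (n + (j + 1)) m : ℂ) * lam τ z ^ (n + (j + 1)) := by
      have := a1.summable.sum_add_tsum_nat_add (j + 1)
      rw [a1.tsum_eq] at this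
      simp only [h]
      rw [a0, ← this]
      ring
    have hb : ∀ n, ‖(al (n + (j + 1)) m : ℂ) * lam τ z ^ (n + (j + 1))‖ ≤
        ‖(al (n + (j + 1)) m : ℂ)‖ * (1 / 2 : ℝ) ^ n * ‖z‖ ^ (j + 1) := by
      intro n
      rw [norm_mul, norm_pow, pow_add, ← mul_assoc]
      gcongr
      exact hl.trans hz
    rw [a2, norm_neg, ← tsum_mul_right]
    exact (norm_tsum_le_tsum_norm ((hs2.mul_right _).of_nonneg_of_le (fun _ => norm_nonneg _) hb)).trans
      (((hs2.mul_right _).of_nonneg_of_le (fun _ => norm_nonneg _) hb).tsum_le_tsum hb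
        (hs2.mul_right _))
  have := coeff_zero _ h hd hs (j + 1) K hK j (by omega)
  exact sub_eq_zero.1 this

/-- **Littlewood's inequality** for polynomials in the lens map. -/
theorem littlewood (N : ℕ) : ∀ (a : ℕ → ℂ) (ρ : ℝ), 0 ≤ ρ → ρ < 1 →
    HardyMean (fun z => ∑ n ∈ range N, a n * lam τ z ^ n) ρ ≤ ∑ n ∈ range N, ‖a n‖ ^ 2 := by
  induction N with
  | zero =>
    intro a ρ hρ _
    rw [mean_const 0 ρ _ (fun z _ => by simp) hρ]
    simp
  | succ N ih =>
    intro a ρ hρ hρ1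
    let G : ℂ → ℂ := fun z => ∑ n ∈ range N, a (n + 1) * lam τ z ^ n
    have dG : DifferentiableOn ℂ G (Metric.ball 0 1) := DifferentiableOn.fun_sum fun n _ =>
      (lam_pow_diff h0 h1 n).const_mul _
    have dH : DifferentiableOn ℂ (fun z => lam τ z * G z) (Metric.ball 0 1) :=
      (lam_diffOn h0 h1).mul dG
    have e : (fun z => ∑ n ∈ range (N + 1), a n * lam τ z ^ n) = fun z => a 0 + lam τ z * G z := by
      funext z
      rw [Finset.sum_range_succ', pow_zero, mul_one, add_comm]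
      congr 1
      rw [Finset.mul_sum]
      exact Finset.sum_congr rfl fun n _ => by rw [pow_succ]; ring
    have cH := tc_hasSum dH
    have c0 : tc (fun z => lam τ z * G z) 0 = 0 := by
      simp [tc, lam_zero]
    let c : ℕ → ℂ := fun n => if n = 0 then a 0 else tc (fun z => lam τ z * G z) n
    have cF : ∀ z : ℂ, ‖z‖ < 1 → HasSum (fun n => c n * z ^ n) (a 0 + lam τ z * G z) := by
      intro z hz
      have h := (hasSum_ite_eq 0 (a 0)).add (cH z hz)
      have e2 : (fun n => c n * z ^ n) = fun n => (if n = 0 then a 0 else 0) +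
          tc (fun z => lam τ z * G z) n * z ^ n := by
        funext n
        by_cases hn : n = 0
        · subst hn; simp [c, c0]
        · simp [c, hn]
      rw [e2]
      exact h
    have p1 := parseval c _ (fun z hz => (cF z hz).summable.norm) cF ρ hρ hρ1
    have p2 := parseval _ _ (fun z hz => (cH z hz).summable.norm) cH ρ hρ hρ1
    have p3 := (hasSum_ite_eq 0 (‖a 0‖ ^ 2)).add p2
    have e3 : (fun n => ‖c n‖ ^ 2 * ρ ^ (n + n)) = fun n => (if n = 0 then ‖a 0‖ ^ 2 else 0) +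
        ‖tc (fun z => lam τ z * G z) n‖ ^ 2 * ρ ^ (n + n) := by
      funext n
      by_cases hn : n = 0
      · subst hn; simp [c, c0]
      · simp [c, hn]
    rw [e3] at p1
    have p4 := p1.unique p3
    have p5 : HardyMean (fun z => lam τ z * G z) ρ ≤ HardyMean G ρ := by
      refine mean_mono dH.continuousOn dG.continuousOn hρ hρ1 fun z hz => ?_
      rw [norm_mul]
      exact mul_le_of_le_one_left (norm_nonneg _) (lam_norm_lt h0 h1 (by rw [hz]; exact hρ1)).le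
    have p6 := ih (fun n => a (n + 1)) ρ hρ hρ1
    rw [e, p4, Finset.sum_range_succ', add_comm]
    exact add_le_add_left (p5.trans p6) _

/-- the rows of the matrix applied to a vector -/
theorem lc_bound (a : ℕ → ℂ) (N : ℕ) :
    ∑ j ∈ range N, ‖∑ n ∈ range (j + 1), lc τ j n * a n‖ ^ 2 ≤ ∑ n ∈ range N, ‖a n‖ ^ 2 := by
  have hs : ∀ z : ℂ, ‖z‖ < 1 → HasSum (fun i => (∑ n ∈ range N, lc τ i n * a n) * z ^ i)
      (∑ n ∈ range N, a n * lam τ z ^ n) := by
    intro z hz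
    have a1 := hasSum_sum (s := range N) (f := fun n i => a n * (lc τ i n * z ^ i))
      (a := fun n => a n * lam τ z ^ n) fun n _ => (lc_hasSum h0 h1 n z hz).mul_left _
    have e : (fun i => (∑ n ∈ range N, lc τ i n * a n) * z ^ i) =
        fun i => ∑ n ∈ range N, a n * (lc τ i n * z ^ i) := by
      funext i
      rw [Finset.sum_mul]
      exact Finset.sum_congr rfl fun n _ => by ring
    rw [e]
    exact a1
  have h := partial_le _ _ (fun z hz => (hs z hz).summable.norm) hs _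
    (fun ρ h2 h3 => littlewood h0 h1 N a ρ h2.le h3) (range N)
  refine le_trans (le_of_eq (Finset.sum_congr rfl fun j hj => ?_)) h
  congr 2
  refine Finset.sum_subset (fun i => by simp only [Finset.mem_range] at *; omega) fun n _ hn => ?_
  rw [lc_lt h0 h1 j n (by simpa using hn), zero_mul]

theorem lc_one : lc τ 1 1 = τ := by
  have h := lc_al h0 h1 1 1
  rw [Finset.sum_range_succ, Finset.sum_range_one, al_one_right, al_one_right] at h
  norm_num at h
  exact h

end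

theorem sum_two {M : Type*} [AddCommMonoid M] (f : ℕ → M) (N : ℕ) : ∑ n ∈ range (2 * N), f n =
    ∑ k ∈ range N, f (2 * k) + ∑ k ∈ range N, f (2 * k + 1) := by
  induction N with
  | zero => simp
  | succ N ih =>
    rw [show 2 * (N + 1) = 2 * N + 1 + 1 by ring, Finset.sum_range_succ, Finset.sum_range_succ, ih,
      Finset.sum_range_succ, Finset.sum_range_succ]
    abel

/-- matrix entries of the operator on `H²` -/
noncomputable def w (τ : ℝ) (j k : ℕ) : ℂ := lc τ (2 * j + 1) (2 * k + 1)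

noncomputable def Wfun (τ : ℝ) (a : ℕ → ℂ) (j : ℕ) : ℂ := ∑ k ∈ range (j + 1), w τ j k * a k

section
variable {τ : ℝ} (h0 : 0 ≤ τ) (h1 : τ ≤ 1)
include h0 h1

theorem w_lt (j k : ℕ) (h : j < k) : w τ j k = 0 := lc_lt h0 h1 _ _ (by omega)

theorem w_al (i m : ℕ) : ∑ k ∈ range (i + 1), w τ i k * (al (2 * k + 1) m : ℂ) =
    (τ : ℂ) ^ m * (al (2 * i + 1) m : ℂ) := by
  rw [← lc_al h0 h1 (2 * i + 1) m]
  have : (range (2 * i + 1 + 1)) = (range (i + 1)).image (fun k => 2 * k) ∪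
      (range (i + 1)).image (fun k => 2 * k + 1) := by
    ext n
    simp only [Finset.mem_range, Finset.mem_union, Finset.mem_image]
    constructor
    · intro hn
      rcases Nat.even_or_odd' n with ⟨k, rfl | rfl⟩
      · exact Or.inl ⟨k, by omega, rfl⟩
      · exact Or.inr ⟨k, by omega, rfl⟩
    · rintro (⟨k, hk, rfl⟩ | ⟨k, hk, rfl⟩) <;> omega
  have h2 : ∑ k ∈ range (i + 1), lc τ (2 * i + 1) (2 * k) * (al (2 * k) m : ℂ) = 0 :=
    Finset.sum_eq_zero fun k _ => by rw [lc_parity h0 h1 _ _ (by omega), zero_mul]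
  rw [this, Finset.sum_union, Finset.sum_image, Finset.sum_image, h2, zero_add]
  · rfl
  · intro x _ y _ h; simp only at h; omega
  · intro x _ y _ h; simp only at h; omega
  · rw [Finset.disjoint_left]
    intro n hn hn'
    simp only [Finset.mem_image] at hn hn'
    obtain ⟨a, _, rfl⟩ := hn
    obtain ⟨b, _, hb⟩ := hn'
    omega

theorem Wfun_bound (a : ℕ → ℂ) (N : ℕ) :
    ∑ j ∈ range N, ‖Wfun τ a j‖ ^ 2 ≤ ∑ k ∈ range N, ‖a k‖ ^ 2 := by
  let b : ℕ → ℂ := fun n => if n % 2 = 1 then a (n / 2) else 0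
  have b0 : ∀ k, b (2 * k) = 0 := fun k => by simp [b]
  have b1 : ∀ k, b (2 * k + 1) = a k := fun k => by
    have e1 : (2 * k + 1) % 2 = 1 := by omega
    have e2 : (2 * k + 1) / 2 = k := by omega
    simp [b, e1, e2]
  have hb := lc_bound h0 h1 b (2 * N)
  rw [sum_two, sum_two (fun n => ‖b n‖ ^ 2)] at hb
  simp only [b0, b1, norm_zero] at hb
  have e : ∀ k, ∑ n ∈ range (2 * k + 1 + 1), lc τ (2 * k + 1) n * b n = Wfun τ a k := by
    intro k
    rw [show 2 * k + 1 + 1 = 2 * (k + 1) by ring, sum_two]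
    simp only [b0, b1, mul_zero, Finset.sum_const_zero, zero_add]
    rfl
  simp only [e] at hb
  have : 0 ≤ ∑ k ∈ range N, ‖∑ n ∈ range (2 * k + 1), lc τ (2 * k) n * b n‖ ^ 2 :=
    Finset.sum_nonneg fun _ _ => by positivity
  simp only [ne_eq, OfNat.ofNat_ne_zero, not_false_eq_true, zero_pow, Finset.sum_const_zero,
    zero_add] at hb
  linarith

theorem Wfun_bound' (a : H2) (s : Finset ℕ) : ∑ j ∈ s, ‖Wfun τ a j‖ ^ 2 ≤ ‖a‖ ^ 2 := by
  obtain ⟨N, hN⟩ := s.exists_nat_subset_range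
  calc ∑ j ∈ s, ‖Wfun τ a j‖ ^ 2 ≤ ∑ j ∈ range N, ‖Wfun τ a j‖ ^ 2 :=
        Finset.sum_le_sum_of_subset_of_nonneg hN (fun _ _ _ => by positivity)
    _ ≤ ∑ k ∈ range N, ‖a k‖ ^ 2 := Wfun_bound h0 h1 a N
    _ ≤ _ := H2_sum_le a _

theorem Wfun_mem (a : H2) : Memℓp (Wfun τ a) 2 := by
  refine memℓp_gen' (C := ‖a‖ ^ 2) fun s => ?_
  simpa using Wfun_bound' h0 h1 a s

/-- the operator as a linear map -/
noncomputable def WLin : H2 →ₗ[ℂ] H2 where
  toFun a := ⟨Wfun τ a, Wfun_mem h0 h1 a⟩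
  map_add' a b := by
    ext j
    change Wfun τ (↑(a + b)) j = Wfun τ a j + Wfun τ b j
    simp only [Wfun, lp.coeFn_add, Pi.add_apply]
    rw [← Finset.sum_add_distrib]
    exact Finset.sum_congr rfl fun k _ => by ring
  map_smul' c a := by
    ext j
    change Wfun τ (↑(c • a)) j = c * Wfun τ a j
    simp only [Wfun, lp.coeFn_smul, Pi.smul_apply, smul_eq_mul]
    rw [Finset.mul_sum]
    exact Finset.sum_congr rfl fun k _ => by ring

/-- the operator -/
noncomputable def W : H2 →L[ℂ] H2 := (WLin h0 h1).mkContinuous 1 (by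
  intro a
  rw [one_mul]
  refine lp.norm_le_of_forall_sum_le (p := 2) (by norm_num) (norm_nonneg _) fun s => ?_
  have := Wfun_bound' h0 h1 a s
  simpa [WLin] using this)

theorem W_norm : ‖W h0 h1‖ ≤ 1 := LinearMap.mkContinuous_norm_le _ zero_le_one _

theorem W_apply (a : H2) (j : ℕ) : (W h0 h1 a) j = ∑ k ∈ range (j + 1), w τ j k * a k := rfl

theorem Wfun_eq (a : ℕ → ℂ) (j N : ℕ) (h : j < N) :
    Wfun τ a j = ∑ k ∈ range N, w τ j k * a k := by
  rw [Wfun]
  refine Finset.sum_subset (by intro b; simp only [Finset.mem_range]; omega) ?_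
  intro k _ hk
  rw [w_lt h0 h1 j k (by simpa using hk), zero_mul]

/-! ### The conjugation -/

theorem wb (i j : ℕ) : ∑ k ∈ range (i + 1), w τ i k * a (2 * k + 1) (2 * j + 1) =
    ∑ m ∈ range (2 * j + 1 + (2 * i + 1) + 1), (τ : ℂ) ^ m * (al (2 * i + 1) m : ℂ) *
      (al (2 * j + 1) m : ℂ) * (cc ^ m / (m.factorial : ℂ)) := by
  have h2 : ∀ k ∈ range (i + 1), w τ i k * a (2 * k + 1) (2 * j + 1) =
      ∑ m ∈ range (2 * j + 1 + (2 * i + 1) + 1), w τ i k * ((al (2 * j + 1) m : ℂ) *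
        (al (2 * k + 1) m : ℂ) * (cc ^ m / (m.factorial : ℂ))) := by
    intro k _
    rw [a_ext (2 * k + 1) (2 * j + 1) (2 * j + 1 + (2 * i + 1) + 1) (by omega), Finset.mul_sum]
  rw [Finset.sum_congr rfl h2, Finset.sum_comm]
  refine Finset.sum_congr rfl fun m _ => ?_
  rw [← w_al h0 h1 i m, Finset.sum_mul, Finset.sum_mul]
  exact Finset.sum_congr rfl fun k _ => by ring

theorem W_ph (j : ℕ) : W h0 h1 (ph j) = ∑ k ∈ range (j + 1), w τ j k • ph k := by
  ext i
  have e1 : (W h0 h1 (ph j)) i = (∑ k ∈ range (i + 1), w τ i k * a (2 * k + 1) (2 * j + 1)) / r2 := by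
    rw [W_apply, Finset.sum_div]
    refine Finset.sum_congr rfl fun k _ => ?_
    rw [ph_apply, b]
    ring
  have e2 : (∑ k ∈ range (j + 1), w τ j k • ph k : H2) i =
      (∑ k ∈ range (j + 1), w τ j k * a (2 * k + 1) (2 * i + 1)) / r2 := by
    rw [lp.coeFn_sum, Finset.sum_apply, Finset.sum_div]
    refine Finset.sum_congr rfl fun k _ => ?_
    rw [lp.coeFn_smul, Pi.smul_apply, smul_eq_mul, ph_apply, b, a_symm (2 * i + 1)]
    ring
  rw [e1, e2, wb h0 h1, wb h0 h1]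
  congr 1
  rw [show 2 * j + 1 + (2 * i + 1) + 1 = 2 * i + 1 + (2 * j + 1) + 1 by ring]
  exact Finset.sum_congr rfl fun m _ => by ring

theorem W_CC (x : H2) : W h0 h1 (CC x) = CC (ContinuousLinearMap.adjoint (W h0 h1) x) := by
  ext j
  rw [CC_apply, ContinuousLinearMap.adjoint_inner_left, W_ph, W_apply, inner_sum]
  refine Finset.sum_congr rfl fun k _ => ?_
  rw [CC_apply, inner_smul_right]

theorem CC_W (x : H2) : CC (W h0 h1 x) = ContinuousLinearMap.adjoint (W h0 h1) (CC x) := by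
  have h := W_CC h0 h1 (CC x)
  rw [CC_CC] at h
  rw [h, CC_CC]

/-! ### The operator is a weighted composition operator -/

theorem w_hasSum (k : ℕ) {x : ℂ} (hx : ‖x‖ < 1) :
    HasSum (fun j => w τ j k * (x ^ 2) ^ j * x) (lam τ x ^ (2 * k + 1)) := by
  have h := lc_hasSum h0 h1 (2 * k + 1) x hx
  have hinj : Function.Injective (fun j : ℕ => 2 * j + 1) := fun x y h => by
    simp only at h; omega
  have h2 := (hinj.hasSum_iff (f := fun j => lc τ j (2 * k + 1) * x ^ j)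
    (a := lam τ x ^ (2 * k + 1)) (by
      intro j hj
      have : j % 2 = 0 := by
        by_contra h3
        exact hj ⟨j / 2, by simp only; omega⟩
      rw [lc_parity h0 h1 j (2 * k + 1) (by omega), zero_mul])).2 h
  have e : (fun j => w τ j k * (x ^ 2) ^ j * x) =
      (fun j => lc τ j (2 * k + 1) * x ^ j) ∘ fun j => 2 * j + 1 := by
    funext j
    simp only [Function.comp_apply, w]
    rw [← pow_mul, mul_assoc, ← pow_succ]
  rw [e]
  exact h2

/-- the columns of the matrix -/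
noncomputable def P (τ : ℝ) (k : ℕ) (z : ℂ) : ℂ := ∑' j, w τ j k * z ^ j

theorem W_single (k : ℕ) (c : ℂ) (j : ℕ) : (W h0 h1 (lp.single 2 k c)) j = w τ j k * c := by
  rw [W_apply]
  have h := Wfun_eq h0 h1 (lp.single (E := fun _ : ℕ => ℂ) 2 k c : H2) j (j + k + 1) (by omega)
  rw [Wfun] at h
  rw [h, Finset.sum_eq_single k]
  · rw [lp.single_apply_self]
  · intro n _ hn
    rw [lp.single_apply_ne _ _ _ hn, mul_zero]
  · intro h
    exact absurd (Finset.mem_range.2 (by omega)) h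

theorem P_eq_ev (k : ℕ) (z : ℂ) : P τ k z = ev (W h0 h1 (lp.single 2 k 1)) z := by
  rw [P, ev]
  exact tsum_congr fun j => by rw [W_single, mul_one]

theorem P_summable (k : ℕ) {z : ℂ} (hz : ‖z‖ < 1) : Summable fun j => w τ j k * z ^ j := by
  have := (H2_summable (W h0 h1 (lp.single 2 k 1)) z hz).of_norm
  refine this.congr fun j => ?_
  rw [W_single, mul_one]

theorem sq_lt {x : ℂ} (hx : ‖x‖ < 1) : ‖x ^ 2‖ < 1 := by
  rw [norm_pow]
  have := norm_nonneg x
  nlinarith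

theorem P_sq (k : ℕ) {x : ℂ} (hx : ‖x‖ < 1) : x * P τ k (x ^ 2) = lam τ x ^ (2 * k + 1) := by
  rw [← (w_hasSum h0 h1 k hx).tsum_eq, tsum_mul_right, P, mul_comm]

theorem P_zero (k : ℕ) : P τ k 0 = w τ 0 k := by
  rw [P, tsum_eq_single 0]
  · simp
  · intro n hn
    rw [zero_pow hn, mul_zero]

theorem exists_sqrt {z : ℂ} (hz : ‖z‖ < 1) : ∃ x : ℂ, ‖x‖ < 1 ∧ x ^ 2 = z := by
  obtain ⟨x, hx⟩ := IsAlgClosed.exists_pow_nat_eq z (n := 2) (by norm_num)
  refine ⟨x, ?_, hx⟩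
  rw [← hx, norm_pow] at hz
  by_contra h
  have : (1 : ℝ) ≤ ‖x‖ := not_lt.1 h
  nlinarith

end

/-- the weight -/
noncomputable def psi (τ : ℝ) (z : ℂ) : ℂ := P τ 0 z
/-- the symbol -/
noncomputable def phi (τ : ℝ) (z : ℂ) : ℂ := z * psi τ z ^ 2

section
variable {τ : ℝ} (h0 : 0 ≤ τ) (h1 : τ ≤ 1)
include h0 h1

theorem psi_sq {x : ℂ} (hx : ‖x‖ < 1) : x * psi τ (x ^ 2) = lam τ x := by
  have := P_sq h0 h1 0 hx
  simpa [psi] using this

theorem phi_sq {x : ℂ} (hx : ‖x‖ < 1) : phi τ (x ^ 2) = lam τ x ^ 2 := by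
  rw [phi, ← psi_sq h0 h1 hx]; ring

theorem phi_lt {z : ℂ} (hz : ‖z‖ < 1) : ‖phi τ z‖ < 1 := by
  obtain ⟨x, hx, rfl⟩ := exists_sqrt h0 h1 hz
  rw [phi_sq h0 h1 hx]
  exact sq_lt h0 h1 (lam_norm_lt h0 h1 hx)

theorem psi_zero : psi τ 0 = τ := by
  rw [psi, P_zero h0 h1, w, lc_one h0 h1]

theorem P_eq (k : ℕ) {z : ℂ} (hz : ‖z‖ < 1) : P τ k z = psi τ z * phi τ z ^ k := by
  obtain ⟨x, hx, rfl⟩ := exists_sqrt h0 h1 hz
  by_cases hx0 : x = 0
  · subst hx0
    rw [zero_pow two_ne_zero, P_zero h0 h1, phi, zero_mul]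
    rcases k with _ | k
    · rw [psi, P_zero h0 h1, pow_zero, mul_one]
    · rw [w_lt h0 h1 0 (k + 1) (by omega), zero_pow (by omega), mul_zero]
  · have e1 := P_sq h0 h1 k hx
    have e2 := psi_sq h0 h1 hx
    have e3 := phi_sq h0 h1 hx
    apply mul_left_cancel₀ hx0
    rw [e1, ← mul_assoc, e2, e3]
    ring

theorem psi_diffOn : DifferentiableOn ℂ (psi τ) (Metric.ball 0 1) := by
  have : psi τ = ev (W h0 h1 (lp.single 2 0 1)) := by
    funext z; exact P_eq_ev h0 h1 0 z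
  rw [this]
  exact ev_diff _

theorem phi_diffOn : DifferentiableOn ℂ (phi τ) (Metric.ball 0 1) :=
  differentiableOn_id.mul ((psi_diffOn h0 h1).pow 2)

theorem ev_W (a : H2) {z : ℂ} (hz : ‖z‖ < 1) : ev (W h0 h1 a) z = psi τ z * ev a (phi τ z) := by
  have hphi := phi_lt h0 h1 hz
  let F : H2 →L[ℂ] ℂ := (innerSL ℂ (ker z hz)).comp (W h0 h1)
  let G : H2 →L[ℂ] ℂ := psi τ z • innerSL ℂ (ker (phi τ z) hphi)
  have hF : ∀ b : H2, F b = ev (W h0 h1 b) z := fun b => (ev_eq_inner (W h0 h1 b) z hz).symm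
  have hG : ∀ b : H2, G b = psi τ z * ev b (phi τ z) := fun b => by
    rw [ev_eq_inner b (phi τ z) hphi]; rfl
  rw [← hF, ← hG]
  have hsum := lp.hasSum_single (E := fun _ : ℕ => ℂ) (p := 2) (by norm_num) a
  have h1' := F.hasSum hsum
  have h2' := G.hasSum hsum
  have heq : ∀ k : ℕ, F (lp.single 2 k (a k)) = G (lp.single 2 k (a k)) := by
    intro k
    rw [hF, hG]
    have e1 : ev (lp.single 2 k (a k)) (phi τ z) = a k * phi τ z ^ k := by
      rw [ev, tsum_eq_single k]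
      · rw [lp.single_apply_self]
      · intro n hn
        rw [lp.single_apply_ne _ _ _ hn, zero_mul]
    rw [e1, ev]
    have e3 : (fun j => (W h0 h1 (lp.single 2 k (a k))) j * z ^ j) =
        fun j => a k * (w τ j k * z ^ j) := by
      funext j
      rw [W_single]; ring
    rw [e3, tsum_mul_left]
    have := P_eq h0 h1 k hz
    rw [P] at this
    rw [this]
    ring
  have h3 : HasSum (fun k => G (lp.single 2 k (a k))) (F a) := by
    rw [← funext heq]
    exact h1'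
  exact h3.unique h2'

end

theorem ev_inj {a b : H2} (h : ∀ z : ℂ, ‖z‖ < 1 → ev a z = ev b z) : a = b := by
  have h1 : ∀ z : ℂ, ‖z‖ < 1 → ev (a - b) z = 0 := by
    intro z hz
    rw [ev_eq_inner _ z hz, inner_sub_right, ← ev_eq_inner _ z hz, ← ev_eq_inner _ z hz, h z hz,
      sub_self]
  have h2 : ∀ j, (a - b : H2) j = 0 := fun j => by
    refine coeff_zero (fun j => (a - b : H2) j) (fun _ => 0) (by fun_prop) (fun z hz => ?_)
      (j + 1) 0 (by simp) j (by omega)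
    have := H2_hasSum (a - b) z hz
    rwa [h1 z hz] at this
  rw [← sub_eq_zero]
  ext j
  exact h2 j

theorem lam_lam {σ τ : ℝ} (s0 : 0 ≤ σ) (s1 : σ ≤ 1) {x : ℂ} (hx : ‖x‖ < 1) :
    lam τ (lam σ x) = lam (τ * σ) x := by
  rw [lam, Lg_lam s0 s1 hx, lam, ← mul_assoc, Complex.ofReal_mul]

theorem W_mul {σ τ : ℝ} (s0 : 0 ≤ σ) (s1 : σ ≤ 1) (t0 : 0 ≤ τ) (t1 : τ ≤ 1)
    (h0 : 0 ≤ σ * τ) (h1 : σ * τ ≤ 1) (f : H2) : W s0 s1 (W t0 t1 f) = W h0 h1 f := by
  refine ev_inj fun z hz => ?_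
  rw [ev_W s0 s1 _ hz, ev_W t0 t1 _ (phi_lt s0 s1 hz), ev_W h0 h1 _ hz]
  obtain ⟨x, hx, rfl⟩ := exists_sqrt s0 s1 hz
  have hl := lam_norm_lt s0 s1 hx
  have e1 := lam_lam (τ := τ) s0 s1 hx
  rw [mul_comm τ σ] at e1
  rw [phi_sq s0 s1 hx, phi_sq t0 t1 hl, phi_sq h0 h1 hx, e1, ← mul_assoc]
  congr 1
  by_cases hx0 : x = 0
  · subst hx0
    rw [lam_zero, zero_pow two_ne_zero, psi_zero s0 s1, psi_zero t0 t1, psi_zero h0 h1]
    push_cast; ring
  · apply mul_left_cancel₀ hx0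
    rw [← mul_assoc, psi_sq s0 s1 hx, psi_sq t0 t1 hl, psi_sq h0 h1 hx, e1]

/-! ### The symbol is not linear fractional -/

/-- the points `tanh (s / 2)` -/
noncomputable def X (s : ℝ) : ℝ := (Real.exp s - 1) / (Real.exp s + 1)

theorem X_lt (s : ℝ) : ‖((X s : ℝ) : ℂ)‖ < 1 := by
  rw [Complex.norm_real, Real.norm_eq_abs, X, abs_div, abs_of_pos (a := Real.exp s + 1) (by positivity),
    div_lt_one (by positivity), abs_lt]
  have := Real.exp_pos s
  constructor <;> linarith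

theorem Lg_X (s : ℝ) : Lg (X s) = s := by
  have hx := X_lt s
  have e1 : Complex.exp (Lg (X s)) = Complex.exp s := by
    rw [exp_Lg hx, X]
    have h1 : (Complex.exp s + 1) ≠ 0 := by
      have : (0 : ℝ) < Real.exp s + 1 := by positivity
      have h2 := this.ne'
      exact_mod_cast h2
    push_cast
    field_simp
    ring
  have i1 := abs_lt.1 (Lg_im hx)
  have hpi := Real.pi_pos
  rw [← Complex.log_exp (x := Lg (X s)) (by linarith [i1.1]) (by linarith [i1.2]), e1,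
    Complex.log_exp (by rw [Complex.ofReal_im]; linarith) (by rw [Complex.ofReal_im]; linarith)]

theorem lam_X (τ s : ℝ) : lam τ (X s) = X (τ * s) := by
  rw [lam, Lg_X, X]
  push_cast
  rfl

theorem X_tendsto : Filter.Tendsto X Filter.atTop (nhds 1) := by
  have e : X = fun s => 1 - 2 / (Real.exp s + 1) := by
    funext s
    have : Real.exp s + 1 ≠ 0 := by positivity
    rw [X]; field_simp; ring
  rw [e]
  have h : Filter.Tendsto (fun s => Real.exp s + 1) Filter.atTop Filter.atTop :=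
    Filter.tendsto_atTop_add_const_right _ _ Real.tendsto_exp_atTop
  have := (h.const_div_atTop 2).const_sub 1
  simpa using this

theorem X_ratio {τ : ℝ} (s : ℝ) (hs : 0 ≤ τ * s) :
    (1 - X s ^ 2) / (1 - X (τ * s) ^ 2) ≤ 4 * Real.exp (-((1 - τ) * s)) ∧
      0 ≤ (1 - X s ^ 2) / (1 - X (τ * s) ^ 2) := by
  have e : ∀ s, 1 - X s ^ 2 = 4 * Real.exp s / (Real.exp s + 1) ^ 2 := fun s => by
    have : Real.exp s + 1 ≠ 0 := by positivity
    rw [X]; field_simp; ring
  rw [e, e]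
  refine ⟨?_, by positivity⟩
  have h1 : Real.exp (-((1 - τ) * s)) = Real.exp (τ * s) / Real.exp s := by
    rw [← Real.exp_sub]; congr 1; ring
  rw [h1]
  have p := Real.exp_pos s
  have q := Real.exp_pos (τ * s)
  have q1 : 1 ≤ Real.exp (τ * s) := Real.one_le_exp hs
  generalize Real.exp s = P at *
  generalize Real.exp (τ * s) = Q at *
  have e1 : 4 * P / (P + 1) ^ 2 / (4 * Q / (Q + 1) ^ 2) =
      4 * P * (Q + 1) ^ 2 / ((P + 1) ^ 2 * (4 * Q)) := by field_simp
  rw [e1, mul_div_assoc', div_le_div_iff₀ (by positivity) p]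
  have h2 : (Q + 1) ^ 2 ≤ 4 * Q ^ 2 := by nlinarith
  have h3 : P ^ 2 ≤ (P + 1) ^ 2 := by nlinarith
  calc 4 * P * (Q + 1) ^ 2 * P = 4 * P ^ 2 * (Q + 1) ^ 2 := by ring
    _ ≤ 4 * (P + 1) ^ 2 * (4 * Q ^ 2) := by gcongr
    _ = 4 * Q * ((P + 1) ^ 2 * (4 * Q)) := by ring

theorem not_lft {τ : ℝ} (h0 : 0 < τ) (h1 : τ < 1) : ¬ ∃ a b c d : ℂ, a * d - b * c ≠ 0 ∧
    ∀ z : ℂ, ‖z‖ < 1 → phi τ z * (c * z + d) = a * z + b := by
  rintro ⟨a, b, c, d, hne, h⟩
  have hb : b = 0 := by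
    have := h 0 (by simp)
    rw [phi, zero_mul, zero_mul, mul_zero, zero_add] at this
    exact this.symm
  have hX : ∀ s : ℝ, (X (τ * s) : ℂ) ^ 2 * (c * (X s : ℂ) ^ 2 + d) = a * (X s : ℂ) ^ 2 := by
    intro s
    have := h ((X s : ℂ) ^ 2) (sq_lt h0.le h1.le (X_lt s))
    rwa [phi_sq h0.le h1.le (X_lt s), lam_X, hb, add_zero] at this
  have t1 : Filter.Tendsto (fun s : ℝ => (X s : ℂ)) Filter.atTop (nhds 1) := by
    have := (Complex.continuous_ofReal.tendsto 1).comp X_tendsto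
    simpa [Function.comp_def] using this
  have t2 : Filter.Tendsto (fun s : ℝ => (X (τ * s) : ℂ)) Filter.atTop (nhds 1) :=
    t1.comp (Filter.tendsto_id.const_mul_atTop h0)
  have t3 : Filter.Tendsto (fun s : ℝ => c * (X s : ℂ) ^ 2 + d) Filter.atTop (nhds (c + d)) := by
    have := ((t1.pow 2).const_mul c).add_const d
    simpa using this
  have ha : c + d = a := by
    have l1 := (t2.pow 2).mul t3
    have l2 := (t1.pow 2).const_mul a
    rw [one_pow, one_mul] at l1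
    rw [one_pow, mul_one] at l2
    refine tendsto_nhds_unique l1 (l2.congr fun s => (hX s).symm)
  have key : ∀ s : ℝ, c * (X s : ℂ) ^ 2 + d =
      d * (((1 - X s ^ 2) / (1 - X (τ * s) ^ 2) : ℝ) : ℂ) := by
    intro s
    have e := hX s
    rw [← ha] at e
    have hn : (1 - (X (τ * s) : ℂ) ^ 2) ≠ 0 := by
      have h3 := X_lt (τ * s)
      have h4 := sq_lt h0.le h1.le h3
      intro h5
      have : (X (τ * s) : ℂ) ^ 2 = 1 := (sub_eq_zero.1 h5).symm
      rw [this] at h4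
      simp at h4
    push_cast
    rw [← mul_div_assoc, eq_div_iff hn]
    linear_combination -e
  have t4 : Filter.Tendsto (fun s : ℝ => (1 - X s ^ 2) / (1 - X (τ * s) ^ 2)) Filter.atTop
      (nhds 0) := by
    have l1 : Filter.Tendsto (fun s : ℝ => 4 * Real.exp (-((1 - τ) * s))) Filter.atTop (nhds 0) := by
      have := (Real.tendsto_exp_neg_atTop_nhds_zero.comp
        (Filter.tendsto_id.const_mul_atTop (sub_pos.2 h1))).const_mul 4
      simpa [Function.comp_def] using this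
    refine tendsto_of_tendsto_of_tendsto_of_le_of_le' tendsto_const_nhds l1 ?_ ?_
    · filter_upwards [Filter.eventually_ge_atTop 0] with s hs
      exact (X_ratio s (by positivity)).2
    · filter_upwards [Filter.eventually_ge_atTop 0] with s hs
      exact (X_ratio s (by positivity)).1
  have t5 : Filter.Tendsto (fun s : ℝ => d * (((1 - X s ^ 2) / (1 - X (τ * s) ^ 2) : ℝ) : ℂ))
      Filter.atTop (nhds 0) := by
    have := ((Complex.continuous_ofReal.tendsto 0).comp t4).const_mul d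
    simpa [Function.comp_def] using this
  have hcd : c + d = 0 := tendsto_nhds_unique t3 (t5.congr fun s => (key s).symm)
  apply hne
  rw [hb, ← ha, hcd]
  ring

end Pool.Agent.KS6_9.Lens
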