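import Pool.Graph.R_seed8.V1197.CW.Conj
import Pool.Graph.R_seed8.V1197.CW.Hardy

/-! The lens maps of the disc and their composition operators. -/

namespace Pool.Agent.KS6_9.Lens
open Finset MeasureTheory Set Pool.Agent.V1197.CW
open scoped ComplexConjugate

theorem one_add_re {x : ℂ} (hx : ‖x‖ < 1) : 0 < (1 + x).re := by
  rw [Complex.add_re, Complex.one_re]
  have := Complex.abs_re_le_norm x
  have := neg_abs_le x.re
  linarith

theorem one_sub_re {x : ℂ} (hx : ‖x‖ < 1) : 0 < (1 - x).re := by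
  have := one_add_re (x := -x) (by rwa [norm_neg])
  rwa [← sub_eq_add_neg] at this

theorem ne_of_re_pos {x : ℂ} (h : 0 < x.re) : x ≠ 0 := by
  rintro rfl; simp at h

theorem exp_Lg {x : ℂ} (hx : ‖x‖ < 1) : Complex.exp (Lg x) = (1 + x) / (1 - x) := by
  rw [Lg, Complex.exp_sub, Complex.exp_log (ne_of_re_pos (one_add_re hx)),
    Complex.exp_log (ne_of_re_pos (one_sub_re hx))]

theorem div_re {x : ℂ} (hx : ‖x‖ < 1) : 0 < ((1 + x) / (1 - x)).re := by
  have h0 := ne_of_re_pos (one_sub_re hx)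
  have h1 : 0 < Complex.normSq (1 - x) := Complex.normSq_pos.2 h0
  rw [Complex.div_re, ← add_div]
  refine div_pos ?_ h1
  have h2 : ‖x‖ ^ 2 < 1 := by
    have := norm_nonneg x
    nlinarith
  rw [Complex.sq_norm, Complex.normSq_apply] at h2
  simp only [Complex.add_re, Complex.sub_re, Complex.one_re, Complex.add_im, Complex.sub_im,
    Complex.one_im]
  nlinarith

theorem Lg_im {x : ℂ} (hx : ‖x‖ < 1) : |(Lg x).im| < Real.pi / 2 := by
  have h1 : |(1 + x).arg| < Real.pi / 2 := Complex.abs_arg_lt_pi_div_two_iff.2 (Or.inl (one_add_re hx))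
  have h2 : |(1 - x).arg| < Real.pi / 2 := Complex.abs_arg_lt_pi_div_two_iff.2 (Or.inl (one_sub_re hx))
  have h3 : (Lg x).im = (1 + x).arg - (1 - x).arg := by
    rw [Lg, Complex.sub_im, Complex.log_im, Complex.log_im]
  have h4 : 0 < Real.cos (Lg x).im := by
    have h5 := div_re hx
    rw [← exp_Lg hx, Complex.exp_re] at h5
    exact (mul_pos_iff_of_pos_left (Real.exp_pos _)).1 h5
  by_contra h
  have h5 : Real.pi / 2 ≤ |(Lg x).im| := not_lt.1 h
  have h6 : |(Lg x).im| ≤ Real.pi := by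
    rw [h3]
    refine (abs_sub _ _).trans ?_
    linarith
  have h7 : Real.cos |(Lg x).im| ≤ 0 :=
    Real.cos_nonpos_of_pi_div_two_le_of_le h5 (by linarith [Real.pi_pos])
  rw [Real.cos_abs] at h7
  linarith

/-- the lens map with parameter `τ` -/
noncomputable def lam (τ : ℝ) (x : ℂ) : ℂ :=
  (Complex.exp (τ * Lg x) - 1) / (Complex.exp (τ * Lg x) + 1)

theorem im_lt {τ : ℝ} (h0 : 0 ≤ τ) (h1 : τ ≤ 1) {x : ℂ} (hx : ‖x‖ < 1) :
    |((τ : ℂ) * Lg x).im| < Real.pi / 2 := by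
  rw [Complex.im_ofReal_mul, abs_mul, abs_of_nonneg h0]
  exact (mul_le_of_le_one_left (abs_nonneg _) h1).trans_lt (Lg_im hx)

theorem E_re {τ : ℝ} (h0 : 0 ≤ τ) (h1 : τ ≤ 1) {x : ℂ} (hx : ‖x‖ < 1) :
    0 < (Complex.exp (τ * Lg x)).re := by
  rw [Complex.exp_re]
  have h := abs_lt.1 (im_lt h0 h1 hx)
  exact mul_pos (Real.exp_pos _) (Real.cos_pos_of_mem_Ioo ⟨by linarith [h.1], h.2⟩)

theorem E_add_ne {τ : ℝ} (h0 : 0 ≤ τ) (h1 : τ ≤ 1) {x : ℂ} (hx : ‖x‖ < 1) :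
    Complex.exp (τ * Lg x) + 1 ≠ 0 := by
  refine ne_of_re_pos ?_
  have := E_re h0 h1 hx
  rw [Complex.add_re, Complex.one_re]
  linarith

theorem lam_norm_lt {τ : ℝ} (h0 : 0 ≤ τ) (h1 : τ ≤ 1) {x : ℂ} (hx : ‖x‖ < 1) : ‖lam τ x‖ < 1 := by
  rw [lam, norm_div, div_lt_one (norm_pos_iff.2 (E_add_ne h0 h1 hx))]
  have h := E_re h0 h1 hx
  have h2 : ‖Complex.exp (τ * Lg x) - 1‖ ^ 2 < ‖Complex.exp (τ * Lg x) + 1‖ ^ 2 := by
    rw [Complex.sq_norm, Complex.sq_norm, Complex.normSq_apply, Complex.normSq_apply]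
    simp only [Complex.sub_re, Complex.sub_im, Complex.add_re, Complex.add_im, Complex.one_re,
      Complex.one_im]
    nlinarith
  exact lt_of_pow_lt_pow_left₀ 2 (norm_nonneg _) h2

theorem Lg_lam {τ : ℝ} (h0 : 0 ≤ τ) (h1 : τ ≤ 1) {x : ℂ} (hx : ‖x‖ < 1) :
    Lg (lam τ x) = τ * Lg x := by
  have hl := lam_norm_lt h0 h1 hx
  have e1 : Complex.exp (Lg (lam τ x)) = Complex.exp (τ * Lg x) := by
    rw [exp_Lg hl]
    have h3 := ne_of_re_pos (one_sub_re hl)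
    rw [div_eq_iff h3, lam]
    have := E_add_ne h0 h1 hx
    field_simp
    ring
  have i1 := abs_lt.1 (Lg_im hl)
  have i2 := abs_lt.1 (im_lt h0 h1 hx)
  have hpi := Real.pi_pos
  rw [← Complex.log_exp (x := Lg (lam τ x)) (by linarith [i1.1]) (by linarith [i1.2]), e1,
    Complex.log_exp (by linarith [i2.1]) (by linarith [i2.2])]

theorem Lg_zero : Lg 0 = 0 := by simp [Lg]

theorem Lg_neg (x : ℂ) : Lg (-x) = - Lg x := by
  rw [Lg, Lg, sub_neg_eq_add, ← sub_eq_add_neg]; ring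

theorem lam_zero (τ : ℝ) : lam τ 0 = 0 := by simp [lam, Lg_zero]

theorem lam_neg {τ : ℝ} (x : ℂ) : lam τ (-x) = - lam τ x := by
  rw [lam, lam, Lg_neg, mul_neg, Complex.exp_neg]
  have h : Complex.exp (τ * Lg x) ≠ 0 := Complex.exp_ne_zero _
  generalize Complex.exp (τ * Lg x) = E at *
  by_cases h1 : E + 1 = 0
  · have : E⁻¹ + 1 = 0 := by
      field_simp
      linear_combination h1
    rw [h1, this]; simp
  · have : E⁻¹ + 1 ≠ 0 := by
      intro h2
      apply h1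
      field_simp at h2
      linear_combination h2
    have h3 : E⁻¹ + 1 = (E + 1) * E⁻¹ := by field_simp; ring
    rw [div_eq_iff this, h3, neg_mul, ← mul_assoc, div_mul_cancel₀ _ h1]
    field_simp
    ring

theorem Lg_diff {x : ℂ} (hx : ‖x‖ < 1) : DifferentiableAt ℂ Lg x := by
  have h1 : DifferentiableAt ℂ (fun z : ℂ => Complex.log (1 + z)) x :=
    DifferentiableAt.clog (by fun_prop) (Or.inl (one_add_re hx))
  have h2 : DifferentiableAt ℂ (fun z : ℂ => Complex.log (1 - z)) x :=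
    DifferentiableAt.clog (by fun_prop) (Or.inl (one_sub_re hx))
  exact h1.sub h2

theorem lam_diff {τ : ℝ} (h0 : 0 ≤ τ) (h1 : τ ≤ 1) {x : ℂ} (hx : ‖x‖ < 1) :
    DifferentiableAt ℂ (lam τ) x := by
  have h := (Lg_diff hx).const_mul (τ : ℂ)
  exact ((h.cexp).sub_const 1).div ((h.cexp).add_const 1) (E_add_ne h0 h1 hx)

theorem lam_diffOn {τ : ℝ} (h0 : 0 ≤ τ) (h1 : τ ≤ 1) :
    DifferentiableOn ℂ (lam τ) (Metric.ball 0 1) := fun _ hx =>
  (lam_diff h0 h1 (mem_ball_zero_iff.1 hx)).differentiableWithinAt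

theorem lam_schwarz {τ : ℝ} (h0 : 0 ≤ τ) (h1 : τ ≤ 1) {x : ℂ} (hx : ‖x‖ < 1) :
    ‖lam τ x‖ ≤ ‖x‖ := by
  refine Complex.norm_le_norm_of_mapsTo_ball (lam_diffOn h0 h1) (fun z hz => ?_) (lam_zero τ) hx
  exact mem_closedBall_zero_iff.2 (lam_norm_lt h0 h1 (mem_ball_zero_iff.1 hz)).le

end Pool.Agent.KS6_9.Lens
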